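import Pool.Agent.H770BR.Asm
import Pool.Agent.H770BR.TReal
import Pool.Agent.H770BR.THsp
import Pool.Agent.H770BR.Comp
import Pool.Agent.H770BR.DecS
import Pool.Agent.H770BR.THp
import Pool.Agent.H770BR.TSmall
import Pool.Agent.H770BR.T_co
import Pool.Agent.H770BR.T_dec0
import Pool.Agent.H770BR.T_hs
import Pool.Agent.H770BR.T_shps
import Pool.Agent.H770BR.Thps
import Pool.Agent.H784R3.BR.Shp
import Pool.Agent.H214R3.BrandtInv
set_option autoImplicit false

/-!
# The finite Brandt semigroups over a pseudovariety of groups are completely solvable
-/

namespace Pool.Agent.Results.MP_152bd8_lc.BrandtSolvable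
open Pool.Agent.H502.Bk Pool.Agent.H770BR

/-- For every pseudovariety `V` of finite groups with decidable universal theory, every class
obtained from the class of finite Brandt semigroups over groups in `V` by finitely many
applications of the operators `H`, `S`, `P` is decidable. -/
theorem result (V : PV) (hV : V.DecUniv) (l : List Op) : DecClass (app l (BSO V)) :=
  assembly Pool.Agent.H214R3.BrandtInv.tInv t_co t_real t_dec0 (t_decS t_co) t_small
    Pool.Agent.H784R3.BR.shp_eq t_hp t_hs t_hps t_shps t_hsp t_comp V hV l

end Pool.Agent.Results.MP_152bd8_lc.BrandtSolvable
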